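import Mathlib
import Pool.Agent.WB.Final
import Pool.Agent.WS.Final

/-!
An explicit threshold `n_0(q,2)` in Wilson's existence theorem for Steiner systems `S(n,q,2)`:
single exponential for every `q`, better for prime powers `q`.
-/

set_option autoImplicit false

namespace Pool.Agent.Results.MP_409a13_co.ExplicitThreshold

/-- Let `q ≥ 2` and let `n` satisfy the divisibility conditions for `(n,q,2)`.  If
`n ≥ exp (3 * 10 ^ 7 * q ^ 6 * (log q) ^ 4)`, or if `q` is a prime power and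
`n ≥ exp (2 * 10 ^ 8 * q * (log q) ^ 2)`, then there is a Steiner system `S(n,q,2)`. -/
theorem result (q : ℕ) (hq : 2 ≤ q) (n : ℕ)
    (hn : Real.exp (3 * 10 ^ 7 * q ^ 6 * Real.log q ^ 4) ≤ n ∨
      (IsPrimePow q ∧ Real.exp (2 * 10 ^ 8 * q * Real.log q ^ 2) ≤ n))
    (hD : ∀ i < 2, (q - i).choose (2 - i) ∣ (n - i).choose (2 - i)) :
    ∃ 𝓑 : Finset (Finset (Fin n)), (∀ B ∈ 𝓑, B.card = q) ∧
      ∀ R : Finset (Fin n), R.card = 2 → ∃! B, B ∈ 𝓑 ∧ R ⊆ B := by
  rcases hn with hn | ⟨hp, hn⟩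
  · exact Pool.Agent.WS.steiner_single hq n hn hD
  · exact Pool.Agent.WB.steiner_exp hp n hn hD

end Pool.Agent.Results.MP_409a13_co.ExplicitThreshold
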