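import Mathlib
import Pool.Agent.SteinerTits.Basic
import Pool.Agent.SteinerTits.Gap
import Pool.Agent.SteinerTits.EvenBound
import Pool.Agent.SteinerTits.Equality
import Pool.Agent.SteinerTits.EqualityWeak
import Pool.Agent.SteinerTits.Derived
import Pool.Agent.SteinerTits.Witt
import Pool.Agent.SteinerTits.Fisher
import Pool.Agent.SteinerTits.Core
import Pool.Agent.H33.SteinerMain
import Pool.Agent.StSP.Main

/-!
Lower bounds for the number `n` of points of a Steiner system `S(n,q,r)`: `n ≥ (r+2)(q-r+1)` in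
general, and `n ≥ q(q-r+1)` unless `r` lies between every fixed power of `q-r` and `2^(q-r-1)`,
with the list of exceptional parameters; and `n > min(r,q-r)^C` for every `C`, up to finitely many
parameters, already if the divisibility conditions hold.
-/

namespace Pool.Agent.Results.MP_409a13_co.LowerBounds

open Pool.Agent.SteinerTits

/-- The divisibility conditions in terms of `q - r` and `n - r`. -/
theorem dvd_shift {n q r : ℕ} (hrq : r < q) (hqn : q < n)
    {B : Finset (Finset (Fin n))} (h : IsSteiner q r B) {j : ℕ} (hjr : j ≤ r) :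
    (q - r + j).choose j ∣ (n - r + j).choose j := by
  have h1 := h.dvd (i := r - j) (by omega) (by omega)
  have e1 : q - (r - j) = q - r + j := by omega
  have e2 : r - (r - j) = j := by omega
  have e3 : n - (r - j) = n - r + j := by omega
  rwa [e1, e2, e3] at h1

/-- Equality in Tits' inequality. -/
theorem equality_odd {n q r : ℕ} (hr : 2 ≤ r) (hrq : r < q) (hqn : q < n)
    {B : Finset (Finset (Fin n))} (h : IsSteiner q r B) (hn : n = (r + 1) * (q - r + 1)) :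
    (n = 2 * r + 2 ∧ q = r + 1 ∧ (r + 2).Prime) ∨ (n = 24 ∧ q = 8 ∧ r = 5) := by
  obtain ⟨M, hM⟩ : ∃ M, M = q - r := ⟨_, rfl⟩
  have hN : n - r = M * (r + 1) + 1 := by
    have : n = M * (r + 1) + 1 + r := by rw [hn, ← hM]; ring
    omega
  have hD : ∀ j, 1 ≤ j → j ≤ r → (M + j).choose j ∣ (M * (r + 1) + 1 + j).choose j := by
    intro j _ hjr
    have := dvd_shift hrq hqn h hjr
    rwa [hN, ← hM] at this
  rcases classify (by omega) hr hD with ⟨h1, h2⟩ | ⟨h1, h2⟩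
  · left
    rw [h1] at hN
    exact ⟨by omega, by omega, h2⟩
  · right
    rw [h1, h2] at hN
    exact ⟨by omega, by omega, h2⟩

/-- Equality in the bound for even `r`. -/
theorem equality_even {n q r : ℕ} (hr : 2 ≤ r) (hrq : r < q) (hqn : q < n)
    {B : Finset (Finset (Fin n))} (h : IsSteiner q r B) (hn : n + 1 = (r + 2) * (q - r + 1)) :
    (n = 2 * r + 3 ∧ q = r + 1 ∧ (r + 3).Prime) ∨ (n = 23 ∧ q = 7 ∧ r = 4) := by
  obtain ⟨M, hM⟩ : ∃ M, M = q - r := ⟨_, rfl⟩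
  have hN : n - r = M * (r + 1 + 1) + 1 := by
    have : n + 1 = M * (r + 1 + 1) + 1 + (r + 1) := by rw [hn, ← hM]; ring
    omega
  have hD : ∀ j, 1 ≤ j → j + 1 ≤ r + 1 →
      (M + j).choose j ∣ (M * (r + 1 + 1) + 1 + j).choose j := by
    intro j _ hjr
    have := dvd_shift hrq hqn h (j := j) (by omega)
    rwa [hN, ← hM] at this
  rcases Weak.classify (by omega) (by omega) hD with ⟨h1, h2⟩ | ⟨h1, h2⟩
  · left
    rw [h1] at hN
    exact ⟨by omega, by omega, h2⟩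
  · right
    have hr4 : r = 4 := by omega
    rw [h1, hr4] at hN
    exact ⟨by omega, by omega, hr4⟩

theorem general_bound :
    (∀ n q r : ℕ, 2 ≤ r → r < q → q < n →
      (∃ B : Finset (Finset (Fin n)), IsSteiner q r B) →
        (r + 2) * (q - r + 1) ≤ n ∨
          (n = 2 * r + 2 ∧ q = r + 1 ∧ (r + 2).Prime) ∨
          (n = 2 * r + 3 ∧ q = r + 1 ∧ (r + 3).Prime) ∨
          (n = 23 ∧ q = 7 ∧ r = 4) ∨ (n = 24 ∧ q = 8 ∧ r = 5)) ∧
    (∃ B : Finset (Finset (Fin 23)), IsSteiner 7 4 B) ∧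
    ∃ B : Finset (Finset (Fin 24)), IsSteiner 8 5 B := by
  refine ⟨?_, witt_isSteiner.derived, ⟨_, witt_isSteiner⟩⟩
  rintro n q r hr hrq hqn ⟨B, h⟩
  rcases Nat.even_or_odd r with hev | hodd
  · have h1 := h.even_bound (Nat.even_iff.1 hev) hr hrq hqn
    rcases Nat.eq_or_lt_of_le h1 with heq | hlt
    · rcases equality_even hr hrq hqn h heq.symm with h2 | h2
      · exact Or.inr (Or.inr (Or.inl h2))
      · exact Or.inr (Or.inr (Or.inr (Or.inl h2)))
    · left; omega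
  · by_cases hne : n = (r + 1) * (q - r + 1)
    · rcases equality_odd hr hrq hqn h hne with h2 | h2
      · exact Or.inr (Or.inl h2)
      · exact Or.inr (Or.inr (Or.inr (Or.inr h2)))
    · left
      exact h.gap (Nat.odd_iff.1 hodd) hrq.le hqn hne

theorem no_ext : ∀ k : ℕ, ¬ ∃ B : Finset (Finset (Fin (66 + k))), IsSteiner (10 + k) (4 + k) B := by
  intro k
  induction k with
  | zero =>
    rintro ⟨B, h⟩
    exact no_66_10_4 B h
  | succ k ih =>
    rintro ⟨B, h⟩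
    exact ih (IsSteiner.derived (n := 66 + k) (q := 10 + k) (r := 4 + k) h)

/-- The twelve exceptional triples `(n,q,r)`. -/
def exceptions : Set (ℕ × ℕ × ℕ) :=
  {(22, 6, 3), (23, 7, 4), (24, 8, 5), (112, 12, 3), (102, 12, 4), (171, 15, 4), (326, 20, 4),
    (786, 30, 4), (3366, 60, 4), (234, 24, 15), (235, 25, 16), (236, 26, 17)}

theorem explicit_part (n q r : ℕ) (hr : 2 ≤ r) (hrq : r < q) (hqn : q < n)
    (hS : ∃ B : Finset (Finset (Fin n)), IsSteiner q r B)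
    (hcase : r ≤ 300 ∨ q - r ≤ 30 ∨ (r - 2) * (r - 5) < q - r ∨
      (q - r - 1).choose ((q - r - 1) / 2) ≤ r) :
    q * (q - r + 1) ≤ n ∨ (n, q, r) ∈ exceptions := by
  obtain ⟨B, h⟩ := hS
  obtain ⟨M, hM⟩ : ∃ M, M = q - r := ⟨_, rfl⟩
  obtain ⟨N, hN⟩ : ∃ N, N = n - r := ⟨_, rfl⟩
  have hq : q = M + r := by omega
  have hn : n = N + r := by omega
  have hF := h.fisher hr hrq hqn
  have hT := h.tits (by omega) hrq.le hqn
  rw [← hM] at hF hT hcase
  rw [← hN] at hF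
  rw [← hM]
  have hqM : q * (M + 1) = M * (M + r + 1) + r := by rw [hq]; ring
  have hTits : M * (r + 1) < N := by
    have e : (r + 1) * (M + 1) = M * (r + 1) + r + 1 := by ring
    omega
  by_cases hle : M * (M + r + 1) ≤ N
  · left; omega
  push Not at hle
  right
  rcases Nat.lt_or_ge 1 M with hM2 | hM1
  swap
  · exfalso
    have hM1' : M = 1 := by omega
    subst hM1'
    omega
  rcases Nat.lt_or_ge 2 r with hr3 | hr2
  swap
  · exfalso
    have hr2' : r = 2 := by omega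
    subst hr2'
    have e : (M + 1) * (M + 2) = M * (M + 2 + 1) + 2 := by ring
    omega
  have hD : ∀ j, 1 ≤ j → j ≤ r → (M + j).choose j ∣ (N + j).choose j := by
    intro j _ hjr
    have := dvd_shift hrq hqn h hjr
    rwa [← hM, ← hN] at this
  rcases core hM2 hr3 hD hTits hF hle hcase with ⟨h1, h2, h3, h4⟩ | ⟨h1, h2, h3⟩ | ⟨h0, h1, h2⟩ |
    ⟨h1, h2⟩ | ⟨h1, h2, h3, h4⟩
  · subst h1
    subst h2
    have hr' : r = 3 ∨ r = 4 ∨ r = 5 := by omega
    rcases hr' with rfl | rfl | rfl <;> subst hq <;> subst hn <;> simp [exceptions]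
  · subst h1
    subst h2
    subst h3
    subst hq
    subst hn
    simp [exceptions]
  · exfalso
    subst h1
    subst h2
    obtain ⟨k, rfl⟩ : ∃ k, r = 4 + k := ⟨r - 4, by omega⟩
    have e1 : q = 10 + k := by omega
    have e2 : n = 66 + k := by omega
    subst e1
    subst e2
    exact no_ext k ⟨B, h⟩
  · subst h2
    rcases h1 with ⟨h1, h2⟩ | ⟨h1, h2⟩ | ⟨h1, h2⟩ | ⟨h1, h2⟩ | ⟨h1, h2⟩ <;> subst h1 <;> subst h2 <;>
      subst hq <;> subst hn <;> simp [exceptions]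
  · subst h1
    subst h2
    have hr' : r = 15 ∨ r = 16 ∨ r = 17 := by omega
    rcases hr' with rfl | rfl | rfl <;> subst hq <;> subst hn <;> simp [exceptions]

theorem lt_of_mem {n q r : ℕ} (h : (n, q, r) ∈ exceptions) : n ≤ 3366 := by
  simp only [exceptions, Set.mem_insert_iff, Set.mem_singleton_iff, Prod.mk.injEq] at h
  omega

/-- The range in which `r` is at most a power of `q - r`. -/
theorem power_part (C : ℕ) : ∃ n₀ : ℕ, ∀ n q r : ℕ, n₀ ≤ n → 2 ≤ r → r < q → q < n →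
    (∃ B : Finset (Finset (Fin n)), IsSteiner q r B) → r ≤ (q - r) ^ C →
    q * (q - r + 1) ≤ n := by
  obtain ⟨k, hk⟩ : ∃ k, k = 2 * (C + 3) := ⟨_, rfl⟩
  have hk0 : k ≠ 0 := by omega
  obtain ⟨n₀, hn₀⟩ := Pool.Agent.H33.Steiner.not_divCond_of_large ((k : ℝ)⁻¹) (by positivity)
  refine ⟨max n₀ 3367, ?_⟩
  intro n q r hn hr hrq hqn hS hrC
  by_contra hlt
  push Not at hlt
  obtain ⟨M, hM⟩ : ∃ M, M = q - r := ⟨_, rfl⟩
  have hq : q = M + r := by omega
  rw [← hM] at hrC hlt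
  have hM2 : 2 ≤ M := by
    by_contra hcon
    have h1 : M = 1 := by omega
    rw [h1, one_pow] at hrC
    omega
  have hMr : M ≤ r ^ 2 := by
    rcases Nat.lt_or_ge ((r - 2) * (r - 5)) M with h | h
    · exfalso
      rcases explicit_part n q r hr hrq hqn hS (Or.inr (Or.inr (Or.inl (by rwa [← hM])))) with
        h2 | h2
      · rw [← hM] at h2
        omega
      · have := lt_of_mem h2
        omega
    · calc M ≤ (r - 2) * (r - 5) := h
        _ ≤ r * r := Nat.mul_le_mul (Nat.sub_le _ _) (Nat.sub_le _ _)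
        _ = r ^ 2 := (sq r).symm
  have hn1 : n ≤ M ^ (C + 3) := by
    have h1 : q ≤ M * M ^ C + M ^ C := by
      have : 1 ≤ M ^ C := Nat.one_le_pow _ _ (by omega)
      have : M * 1 ≤ M * M ^ C := Nat.mul_le_mul_left _ this
      omega
    have h2 : M + 1 ≤ M * M := by nlinarith
    have h3 : M * M ^ C + M ^ C ≤ M ^ C * M * M := by
      have : M * M ^ C + M ^ C = M ^ C * (M + 1) := by ring
      rw [this, mul_assoc]
      exact Nat.mul_le_mul_left _ h2
    have h4 : q * (M + 1) ≤ M ^ C * M * M * (M + 1) := Nat.mul_le_mul_right _ (h1.trans h3)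
    have h5 : q * (M + 1) ≤ (M * M ^ C + M ^ C) * (M + 1) := Nat.mul_le_mul_right _ h1
    have h6 : (M * M ^ C + M ^ C) * (M + 1) = M ^ C * ((M + 1) * (M + 1)) := by ring
    have h7 : n ≤ q * (M + 1) := hlt.le
    -- `n < q (M+1)`, `q = M + r ≤ M + M ^ C`
    have h8 : q * (M + 1) ≤ (M + M ^ C) * (M + 1) := Nat.mul_le_mul_right _ (by omega)
    rcases Nat.eq_zero_or_pos C with hC | hC
    · subst hC
      rw [pow_zero] at hrC
      omega
    · have h9 : M ≤ M ^ C := Nat.le_self_pow hC.ne' M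
      have h10 : (M + M ^ C) * (M + 1) ≤ (2 * M ^ C) * (M + 1) :=
        Nat.mul_le_mul_right _ (by omega)
      have h11 : (2 * M ^ C) * (M + 1) ≤ M ^ C * (M * M * M) := by
        have : 2 * (M + 1) ≤ M * M * M := by nlinarith
        calc (2 * M ^ C) * (M + 1) = M ^ C * (2 * (M + 1)) := by ring
          _ ≤ _ := Nat.mul_le_mul_left _ this
      calc n ≤ M ^ C * (M * M * M) := by omega
        _ = M ^ (C + 3) := by ring
  have hr1 : n ≤ r ^ k := by
    calc n ≤ M ^ (C + 3) := hn1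
      _ ≤ (r ^ 2) ^ (C + 3) := Nat.pow_le_pow_left hMr _
      _ = r ^ k := by rw [hk, ← pow_mul]
  have hM1 : n ≤ M ^ k := hn1.trans (Nat.pow_le_pow_right (by omega) (by omega))
  have key : ∀ x : ℕ, n ≤ x ^ k → (n : ℝ) ^ ((k : ℝ)⁻¹) ≤ x := by
    intro x hx
    calc (n : ℝ) ^ ((k : ℝ)⁻¹) ≤ ((x : ℝ) ^ k) ^ ((k : ℝ)⁻¹) :=
          Real.rpow_le_rpow (Nat.cast_nonneg _) (by exact_mod_cast hx) (by positivity)
      _ = x := Real.pow_rpow_inv_natCast (Nat.cast_nonneg _) hk0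
  have hfin := hn₀ n q r (by omega) hrq.le hqn (key r hr1) (by rw [← hM]; exact key M hM1)
  exact hfin.2 hS

theorem strong_bound :
    (∀ n q r : ℕ, 2 ≤ r → r < q → q < n →
      (∃ B : Finset (Finset (Fin n)), IsSteiner q r B) →
      (r ≤ 300 ∨ q - r ≤ 30 ∨ (r - 2) * (r - 5) < q - r ∨
        (q - r - 1).choose ((q - r - 1) / 2) ≤ r) →
      q * (q - r + 1) ≤ n ∨ (n, q, r) ∈ exceptions) ∧
    ∀ C : ℕ, ∃ n₀ : ℕ, ∀ n q r : ℕ, n₀ ≤ n → 2 ≤ r → r < q → q < n →
      (∃ B : Finset (Finset (Fin n)), IsSteiner q r B) →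
      (r ≤ (q - r) ^ C ∨ 2 ^ (q - r - 1) ≤ r) →
      q * (q - r + 1) ≤ n := by
  refine ⟨explicit_part, ?_⟩
  intro C
  obtain ⟨n₀, hn₀⟩ := power_part C
  refine ⟨max n₀ 3367, ?_⟩
  intro n q r hn hr hrq hqn hS hcase
  rcases hcase with h | h
  · exact hn₀ n q r (by omega) hr hrq hqn hS h
  · rcases explicit_part n q r hr hrq hqn hS (Or.inr (Or.inr (Or.inr
      ((Nat.choose_le_two_pow _ _).trans h)))) with h2 | h2
    · exact h2
    · have := lt_of_mem h2
      omega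

/-- For every `C` only finitely many triples with `r < q < n ≤ min(r, q-r)^C` satisfy the
divisibility conditions, and only finitely many of them belong to a Steiner system. -/
theorem super_polynomial (C : ℕ) :
    {t : ℕ × ℕ × ℕ | t.2.2 < t.2.1 ∧ t.2.1 < t.1 ∧ t.1 ≤ (min t.2.2 (t.2.1 - t.2.2)) ^ C ∧
      ∀ i < t.2.2, (t.2.1 - i).choose (t.2.2 - i) ∣ (t.1 - i).choose (t.2.2 - i)}.Finite ∧
    {t : ℕ × ℕ × ℕ | t.2.2 < t.2.1 ∧ t.2.1 < t.1 ∧ t.1 ≤ (min t.2.2 (t.2.1 - t.2.2)) ^ C ∧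
      ∃ B : Finset (Finset (Fin t.1)), IsSteiner t.2.1 t.2.2 B}.Finite :=
  ⟨Pool.Agent.StSP.finite_form C
      (fun n q r => ∀ i < r, (q - i).choose (r - i) ∣ (n - i).choose (r - i))
      fun _ _ _ _ _ h => h,
    Pool.Agent.StSP.finite_form C
      (fun n q r => ∃ B : Finset (Finset (Fin n)), IsSteiner q r B)
      fun n q r h1 h2 h => Pool.Agent.StSP.steiner_div n q r (by omega) h⟩

/-- Let `2 ≤ r < q < n` and let a Steiner system `S(n,q,r)` exist.

(1) `n ≥ (r+2)(q-r+1)`, unless `(n,q,r)` is `(2r+2,r+1,r)` with `r+2` prime, `(2r+3,r+1,r)` with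
`r+3` prime, `(23,7,4)` or `(24,8,5)`. In the last two cases the system does exist.

(2) Suppose that `r ≤ 300`, or `q - r ≤ 30`, or `q - r > (r-2)(r-5)`, or
`r ≥ C(q-r-1, ⌊(q-r-1)/2⌋)`. Then `n ≥ q(q-r+1)`, unless `(n,q,r)` is one of the twelve triples of
`exceptions`.

(3) For every `C`: if `n` is large enough in terms of `C` and `r ≤ (q-r)^C` or `r ≥ 2^(q-r-1)`,
then `n ≥ q(q-r+1)`.

(4) For every `C`: there are only finitely many triples `(n,q,r)` with `r < q < n ≤ min(r,q-r)^C`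
that satisfy the divisibility conditions `C(q-i,r-i) ∣ C(n-i,r-i)`, `0 ≤ i < r`, and only finitely
many for which a Steiner system `S(n,q,r)` exists. -/
theorem result :
    (∀ n q r : ℕ, 2 ≤ r → r < q → q < n →
      (∃ B : Finset (Finset (Fin n)), IsSteiner q r B) →
        (r + 2) * (q - r + 1) ≤ n ∨
          (n = 2 * r + 2 ∧ q = r + 1 ∧ (r + 2).Prime) ∨
          (n = 2 * r + 3 ∧ q = r + 1 ∧ (r + 3).Prime) ∨
          (n = 23 ∧ q = 7 ∧ r = 4) ∨ (n = 24 ∧ q = 8 ∧ r = 5)) ∧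
    (∃ B : Finset (Finset (Fin 23)), IsSteiner 7 4 B) ∧
    (∃ B : Finset (Finset (Fin 24)), IsSteiner 8 5 B) ∧
    (∀ n q r : ℕ, 2 ≤ r → r < q → q < n →
      (∃ B : Finset (Finset (Fin n)), IsSteiner q r B) →
      (r ≤ 300 ∨ q - r ≤ 30 ∨ (r - 2) * (r - 5) < q - r ∨
        (q - r - 1).choose ((q - r - 1) / 2) ≤ r) →
      q * (q - r + 1) ≤ n ∨ (n, q, r) ∈ exceptions) ∧
    ∀ C : ℕ,
      (∃ n₀ : ℕ, ∀ n q r : ℕ, n₀ ≤ n → 2 ≤ r → r < q → q < n →
        (∃ B : Finset (Finset (Fin n)), IsSteiner q r B) →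
        (r ≤ (q - r) ^ C ∨ 2 ^ (q - r - 1) ≤ r) →
        q * (q - r + 1) ≤ n) ∧
      {t : ℕ × ℕ × ℕ | t.2.2 < t.2.1 ∧ t.2.1 < t.1 ∧ t.1 ≤ (min t.2.2 (t.2.1 - t.2.2)) ^ C ∧
        ∀ i < t.2.2, (t.2.1 - i).choose (t.2.2 - i) ∣ (t.1 - i).choose (t.2.2 - i)}.Finite ∧
      {t : ℕ × ℕ × ℕ | t.2.2 < t.2.1 ∧ t.2.1 < t.1 ∧ t.1 ≤ (min t.2.2 (t.2.1 - t.2.2)) ^ C ∧
        ∃ B : Finset (Finset (Fin t.1)), IsSteiner t.2.1 t.2.2 B}.Finite :=
  ⟨general_bound.1, general_bound.2.1, general_bound.2.2, strong_bound.1,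
    fun C => ⟨strong_bound.2 C, super_polynomial C⟩⟩

end Pool.Agent.Results.MP_409a13_co.LowerBounds
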