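import Mathlib
import Pool.Agent.S56.T191

/-!
# A Steiner system S(192, 6, 5), invariant under PSL(2, 191)

The points are the projective line over the field with 191 elements.  The block through the
points `∞, 0, 1, x, y` is `{∞, 0, 1, x, y, g x y}`, where `g` is the table in
`Pool.Agent.S56.T191`; the other blocks are the images of these under the group PSL(2, 191),
which is three-homogeneous.  The kernel checks that the table is compatible with the group.
-/

namespace Pool.Agent.Results.MP_409a13_co.SteinerFiveDesign192

theorem result :
    (∃ B : Finset (Finset (Fin 192)), (∀ b ∈ B, b.card = 6) ∧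
      ∀ T : Finset (Fin 192), T.card = 5 → ∃! b, b ∈ B ∧ T ⊆ b) ∧
    (∃ B : Finset (Finset (Fin 191)), (∀ b ∈ B, b.card = 5) ∧
      ∀ T : Finset (Fin 191), T.card = 4 → ∃! b, b ∈ B ∧ T ⊆ b) := by
  haveI : Fact (Nat.Prime 191) := ⟨by norm_num⟩
  exact Pool.Agent.S56.steiner_of_check 191 (by norm_num) (by norm_num)
    Pool.Agent.S56.T191.g Pool.Agent.S56.T191.check

end Pool.Agent.Results.MP_409a13_co.SteinerFiveDesign192
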