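import Mathlib
import Pool.Agent.H53.S3.Family

/-!
New Steiner systems with `r = 3` and `q = 5`, and the infinite family they generate.
-/

namespace Pool.Agent.Results.MP_409a13_co.StrengthThreeBlockFive

/-- `B` is a Steiner system `S(n, q, r)` on the points `0, ..., n - 1`: every block has exactly
`q` points and every set of `r` points lies in exactly one block. -/
def IsSteinerSystem (n q r : ℕ) (B : Finset (Finset (Fin n))) : Prop :=
  (∀ b ∈ B, b.card = q) ∧ ∀ T : Finset (Fin n), T.card = r → ∃! b, b ∈ B ∧ T ⊆ b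

/-- For every `m` in the multiplicative monoid generated by
`4, 25, 124, 136, 145, 160, 196, 205, 301, 316, 325, 361, 376, 385, 3124` there is a Steiner system
`S(m + 1, 5, 3)`. -/
theorem result (m : ℕ)
    (hm : m ∈ Submonoid.closure
      ({4, 25, 124, 136, 145, 160, 196, 205, 301, 316, 325, 361, 376, 385, 3124} : Set ℕ)) :
    ∃ B : Finset (Finset (Fin (m + 1))), IsSteinerSystem (m + 1) 5 3 B := by
  classical
  obtain ⟨𝓑, h1, -, h3, h4⟩ := Pool.Agent.H53.S3.dec_family m hm
  refine ⟨𝓑.toFinset, ?_, ?_⟩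
  · intro b hb
    exact h1 b (Set.mem_toFinset.1 hb)
  · intro T hT
    obtain ⟨b, hb, hTb⟩ := h3 T hT trivial
    refine ⟨b, ⟨Set.mem_toFinset.2 hb, hTb⟩, ?_⟩
    rintro b' ⟨hb', hTb'⟩
    exact h4 T hT b' (Set.mem_toFinset.1 hb') b hb hTb' hTb

/-- consequence: the orders reached contain infinitely many `n` in each of the residue classes
`2, 5, 17, 26, 41` modulo `60` -/
theorem residues : ∀ r ∈ ({2, 5, 17, 26, 41} : Set ℕ), ∀ N : ℕ, ∃ n > N, n % 60 = r ∧
      ∃ B : Finset (Finset (Fin n)), IsSteinerSystem n 5 3 B := by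
  intro r hr N
  set S : Submonoid ℕ := Submonoid.closure
    ({4, 25, 124, 136, 145, 160, 196, 205, 301, 316, 325, 361, 376, 385, 3124} : Set ℕ) with hS
  have h4 : (4 : ℕ) ∈ S := Submonoid.subset_closure (by simp)
  have h25 : (25 : ℕ) ∈ S := Submonoid.subset_closure (by simp)
  have h301 : (301 : ℕ) ∈ S := Submonoid.subset_closure (by simp)
  have key : ∀ s ∈ S, 0 < s → ∃ n > N, n % 60 = (s + 1) % 60 ∧
      ∃ B : Finset (Finset (Fin n)), IsSteinerSystem n 5 3 B := by
    intro s hs hpos
    refine ⟨s * 301 ^ N + 1, ?_, ?_, result _ (S.mul_mem hs (S.pow_mem h301 N))⟩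
    · have h1 : N < 301 ^ N := Nat.lt_pow_self (by norm_num)
      have h2 : 1 * 301 ^ N ≤ s * 301 ^ N := Nat.mul_le_mul_right _ hpos
      omega
    · have h1 : 301 ^ N % 60 = 1 := by
        rw [Nat.pow_mod]
        norm_num
      rw [Nat.add_mod, Nat.mul_mod, h1, Nat.mul_one, Nat.mod_mod, ← Nat.add_mod]
  simp only [Set.mem_insert_iff, Set.mem_singleton_iff] at hr
  rcases hr with rfl | rfl | rfl | rfl | rfl
  · exact key 1 S.one_mem (by norm_num)
  · exact key 4 h4 (by norm_num)
  · exact key 16 (S.mul_mem h4 h4) (by norm_num)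
  · exact key 25 h25 (by norm_num)
  · exact key 100 (S.mul_mem h4 h25) (by norm_num)

end Pool.Agent.Results.MP_409a13_co.StrengthThreeBlockFive
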